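import Pool.Agent.H19.Endv

set_option autoImplicit false

namespace Pool.Agent.Results.MP_9525dc_co.Lower

open Pool.Agent.H19.Endv

/-- A proportion of endvertices that forces endvertex-reconstructibility exceeds two fifths. -/
theorem result (α : ℝ) (h : Sufficient α) : 2 / 5 < α :=
  main α h

end Pool.Agent.Results.MP_9525dc_co.Lower
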